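import Pool.Agent.Helper76.Q5P7.StC

/-!
# Project Q5P7 (levels `5·7^n`), module E1A: even exponent, the plane functions of a balanced new symbol

The proof follows `Pool/Agent/Helper67/TK7/M_E1AK7.lean` and `Pool/Agent/Helper61/Q7P5/M_E1A.lean`.
-/

set_option autoImplicit false

namespace Pool.Agent.Helper16.Q5P7

open Pool.Agent.Helper76.Q5P7 Pool.Agent.Helper28.T5
open Pool.Agent.Helper76.S7 (Pt trp ng dR Iv Kl Dv Ty anti7 inv1 inv7 S7DimK S7Split)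
open Pool.Agent.Helper14.CV (Homog EqC act ne_zero_of_det)

private lemma z1 (j : ℕ) : (7 : ZMod (7 ^ (j + 1))) ^ (j + 1) = 0 := by
  have h := ZMod.natCast_self (7 ^ (j + 1))
  push_cast at h
  exact h

private lemma z2 (j : ℕ) : (7 : ZMod (7 ^ (j + 1))) ^ (j + 2) = 0 := by
  rw [pow_succ (7 : ZMod (7 ^ (j + 1))) (j + 1), z1, zero_mul]

/-- `α + 49 γ x` is a unit -/
private lemma un (j : ℕ) {α β γ δ : ℤ} (h : α * δ - 49 * β * γ = 1 ∨ α * δ - 49 * β * γ = 5)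
    (x : ZMod (7 ^ (j + 1))) :
    IsUnit ((α : ZMod (7 ^ (j + 1))) + 7 ^ (1 + 1) * γ * x) := by
  obtain ⟨X, rfl⟩ := ZMod.intCast_surjective x
  have : IsUnit (((α + 7 ^ (1 + 1) * γ * X : ℤ) : ZMod (7 ^ (j + 1)))) := by
    rw [ZMod.coe_int_isUnit_iff_isCoprime]
    push_cast
    rcases h with h | h
    · exact IsCoprime.pow_left ⟨-7 * (β * γ) - 7 * (γ * X * δ), δ, by linear_combination h⟩
    · exact IsCoprime.pow_left ⟨-2 - 21 * (β * γ) - 21 * (γ * X * δ), 3 * δ,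
        by linear_combination 3 * h⟩
  push_cast at this
  have e : (49 : ZMod (7 ^ (j + 1))) = 7 ^ (1 + 1) := by norm_num
  rwa [e] at this

private lemma five_unit (j : ℕ) : IsUnit (5 : ZMod (7 ^ (j + 1))) := by
  have := un j (α := 5) (β := 0) (γ := 0) (δ := 1) (Or.inr (by norm_num)) 0
  simpa using this

private lemma exM (hPlA : HPlA) (j : ℕ) (x y : ZMod (7 ^ (j + 1))) :
    ∃ b c d : ℤ, PlH 1 1 b c d x y :=
  ⟨_, _, _, hPlA 1 (j + 1) (j + 1) x y⟩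

/-- a matrix with upper left entry one is of the first type -/
private lemma sd {q q' : ℕ} {b c d : ℤ} {x : ZMod q} {y : ZMod q'} (h : PlH 1 1 b c d x y) :
    d - 49 * b * c = 1 ∧ (∃ c', c = 5 * c') ∧ (b : ZMod q) = x ∧ (c : ZMod q') = y * d := by
  obtain ⟨h1, h2, h3⟩ := h
  rw [Int.cast_one, mul_one] at h2
  rcases h1 with ⟨h1, h4⟩ | ⟨-, h4, -, -⟩
  · refine ⟨by linear_combination h1, ?_, h2, h3⟩
    obtain ⟨e, he⟩ : ∃ e, c = 5 * e := ⟨c / 5, by omega⟩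
    exact ⟨e, he⟩
  · exact absurd h4 (by norm_num)

private lemma nz {a b c d : ℤ} (h : HTy a (7 ^ 1 * b) (7 * c) d) {u1 u2 : ℤ}
    (hu : u1 ≠ 0 ∨ u2 ≠ 0) : a * u1 + 7 ^ 1 * b * u2 ≠ 0 ∨ 7 * c * u1 + d * u2 ≠ 0 :=
  ne_zero_of_det (a := a) (b := 7 ^ 1 * b) (c := 7 * c) (d := d) h.det_ne hu

/-- The matrix (1 7^(j+1) i; 0 1) g. -/
private lemma plT (j : ℕ) (i : ℤ) {b c d : ℤ} {x y : ZMod (7 ^ (j + 1))}
    (h : PlH 1 1 b c d x y) :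
    PlH 1 (1 + 7 ^ (j + 2) * i * c) (b + 7 ^ j * i * d) c d
      (x + (i : ZMod (7 ^ (j + 1))) * 7 ^ j) y := by
  obtain ⟨h1, ⟨c', hc'⟩, h2, h3⟩ := sd h
  have e : (d : ZMod (7 ^ (j + 1))) = 1 + 49 * b * c := by
    have := congrArg (Int.cast : ℤ → ZMod (7 ^ (j + 1))) h1
    push_cast at this
    linear_combination this
  refine ⟨Or.inl ⟨by linear_combination h1, ⟨7 * c', by rw [hc']; ring⟩⟩, ?_, h3⟩
  push_cast
  linear_combination h2 + (i : ZMod (7 ^ (j + 1))) * 7 ^ j * e +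
    7 * (i : ZMod (7 ^ (j + 1))) * b * c * z1 j -
    (x + i * 7 ^ j) * (i : ZMod (7 ^ (j + 1))) * (c : ZMod (7 ^ (j + 1))) * z2 j

/-- The matrix (1 0; 5 i 7^(j+1) 1) g. -/
private lemma plL (j : ℕ) (i : ℤ) {b c d : ℤ} {x y : ZMod (7 ^ (j + 1))}
    (h : PlH 1 1 b c d x y) :
    PlH 1 1 b (c + 7 ^ j * (5 * i)) (d + 7 ^ (j + 2) * (5 * i) * b) x
      (y + ((5 * i : ℤ) : ZMod (7 ^ (j + 1))) * 7 ^ j) := by
  obtain ⟨h1, ⟨c', hc'⟩, h2, h3⟩ := sd h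
  have e : (d : ZMod (7 ^ (j + 1))) = 1 + 49 * b * c := by
    have := congrArg (Int.cast : ℤ → ZMod (7 ^ (j + 1))) h1
    push_cast at this
    linear_combination this
  refine ⟨Or.inl ⟨by linear_combination h1, ⟨7 * (c' + 7 ^ j * i), by rw [hc']; ring⟩⟩,
    by rw [h2, Int.cast_one, mul_one], ?_⟩
  push_cast
  linear_combination h3 - (5 * i : ZMod (7 ^ (j + 1))) * 7 ^ j * e -
    7 * (5 * i : ZMod (7 ^ (j + 1))) * b * c * z1 j -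
    (y + 5 * i * 7 ^ j) * (5 * i : ZMod (7 ^ (j + 1))) * (b : ZMod (7 ^ (j + 1))) * z2 j

/-- the matrix `g m` -/
private lemma plM {q : ℕ} {b c d α β γ δ : ℤ} {x y x' y' : ZMod q} (h : PlH 1 1 b c d x y)
    (hm : HTy α (7 * β) (7 * γ) δ)
    (hx : x' * (α + 49 * γ * x) = β + δ * x) (hy : y' * (δ + 49 * β * y) = γ + α * y) :
    PlH 1 (α + 49 * b * γ) (β + b * δ) (c * α + d * γ) (49 * c * β + d * δ) x' y' := by
  obtain ⟨h1, ⟨c', hc'⟩, h2, h3⟩ := sd h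
  refine ⟨?_, ?_, ?_⟩
  · rcases hm with ⟨k1, k2⟩ | ⟨k1, k2, k3, k4⟩
    · refine Or.inl ⟨by linear_combination (d - 49 * b * c) * k1 + h1, ?_⟩
      obtain ⟨e, he⟩ : ∃ e, γ = 5 * e := ⟨γ / 5, by omega⟩
      exact ⟨7 * (c' * α + d * e), by rw [hc', he]; ring⟩
    · obtain ⟨e, he⟩ : ∃ e, γ = 5 * e := ⟨γ / 5, by omega⟩
      obtain ⟨s, hs⟩ := k2
      obtain ⟨t, ht⟩ := k4
      refine Or.inr ⟨by linear_combination (d - 49 * b * c) * k1 + 5 * h1, ?_, ?_, ?_⟩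
      · exact ⟨s + 49 * b * e, by rw [he, hs]; ring⟩
      · exact ⟨7 * (c' * α + d * e), by rw [hc', he]; ring⟩
      · exact ⟨49 * c' * β + d * t, by rw [hc', ht]; ring⟩
  · push_cast
    rw [h2]
    linear_combination -hx
  · push_cast
    rw [h3]
    linear_combination -(d : ZMod q) * hy

section

variable {j : ℕ} {G : ℤ → ℤ → ℂ}

/-- the value of the symbol by any matrix with the given coordinates -/
private lemma ed (hEdg : HEdg) (hS : SymH 7 (j + 2) (j + 2) G) {u1 u2 v1 v2 : ℤ}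
    (hu : u1 ≠ 0 ∨ u2 ≠ 0) (hv : v1 ≠ 0 ∨ v2 ≠ 0) {a b c d : ℤ} {x y : ZMod (7 ^ (j + 1))}
    (h : PlH 1 a b c d x y) :
    edgeH 1 u1 u2 v1 v2 G x y = G (a * u1 + 7 ^ 1 * b * u2) (7 * c * u1 + d * u2) -
      G (a * v1 + 7 ^ 1 * b * v2) (7 * c * v1 + d * v2) :=
  hEdg ℂ _ 1 (j + 1) (j + 1) G hS u1 u2 v1 v2 hu hv x y a b c d h

private lemma shx (hPlA : HPlA) (hEdg : HEdg) (hB : BalEH (j + 2) G) {u1 u2 v1 v2 : ℤ}
    (hu : u1 ≠ 0 ∨ u2 ≠ 0) (hv : v1 ≠ 0 ∨ v2 ≠ 0) (x y : ZMod (7 ^ (j + 1))) :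
    ∑ i ∈ Finset.range 7,
      edgeH 1 u1 u2 v1 v2 G (x + (i : ZMod (7 ^ (j + 1))) * 7 ^ j) y = 0 := by
  obtain ⟨hS, hT, -, -, -⟩ := hB
  obtain ⟨b, c, d, h⟩ := exM hPlA j x y
  have e := hT.diff (nz h.1 hu) (nz h.1 hv)
  simp only [Finset.sum_apply, act, Pi.zero_apply, sub_zero] at e
  rw [← Finset.sum_sub_distrib] at e
  rw [← e]
  refine Finset.sum_congr rfl fun i _ => ?_
  have g := plT j (i : ℤ) h
  rw [Int.cast_natCast] at g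
  rw [ed hEdg hS hu hv g]
  have ej : j + 2 - 1 = j + 1 := rfl
  rw [ej]
  congr 1 <;> congr 1 <;> ring

private lemma shy (hPlA : HPlA) (hEdg : HEdg) (hB : BalEH (j + 2) G) {u1 u2 v1 v2 : ℤ}
    (hu : u1 ≠ 0 ∨ u2 ≠ 0) (hv : v1 ≠ 0 ∨ v2 ≠ 0) (x y : ZMod (7 ^ (j + 1))) :
    ∑ i ∈ Finset.range 7,
      edgeH 1 u1 u2 v1 v2 G x (y + (i : ZMod (7 ^ (j + 1))) * 7 ^ j) = 0 := by
  obtain ⟨hS, -, hT, -, -⟩ := hB
  obtain ⟨b, c, d, h⟩ := exM hPlA j x y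
  have e := hT.diff (nz h.1 hu) (nz h.1 hv)
  simp only [Finset.sum_apply, act, Pi.zero_apply, sub_zero] at e
  rw [← Finset.sum_sub_distrib] at e
  have e2 : ∑ i ∈ Finset.range 7,
      edgeH 1 u1 u2 v1 v2 G x (y + ((5 * i : ℤ) : ZMod (7 ^ (j + 1))) * 7 ^ j) = 0 := by
    rw [← e]
    refine Finset.sum_congr rfl fun i _ => ?_
    have g := plL j (i : ℤ) h
    rw [ed hEdg hS hu hv g]
    have ej : j + 2 - 1 = j + 1 := rfl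
    rw [ej]
    congr 1 <;> congr 1 <;> ring
  have z := z1 j
  have a10 : y + ((10 : ℤ) : ZMod (7 ^ (j + 1))) * 7 ^ j = y + (3 : ZMod (7 ^ (j + 1))) * 7 ^ j := by
    push_cast
    linear_combination z
  have a15 : y + ((15 : ℤ) : ZMod (7 ^ (j + 1))) * 7 ^ j =
      y + (1 : ZMod (7 ^ (j + 1))) * 7 ^ j := by
    push_cast
    linear_combination 2 * z
  have a20 : y + ((20 : ℤ) : ZMod (7 ^ (j + 1))) * 7 ^ j =
      y + (6 : ZMod (7 ^ (j + 1))) * 7 ^ j := by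
    push_cast
    linear_combination 2 * z
  have a25 : y + ((25 : ℤ) : ZMod (7 ^ (j + 1))) * 7 ^ j =
      y + (4 : ZMod (7 ^ (j + 1))) * 7 ^ j := by
    push_cast
    linear_combination 3 * z
  have a30 : y + ((30 : ℤ) : ZMod (7 ^ (j + 1))) * 7 ^ j =
      y + (2 : ZMod (7 ^ (j + 1))) * 7 ^ j := by
    push_cast
    linear_combination 4 * z
  simp only [Finset.sum_range_succ, Finset.sum_range_zero, zero_add] at e2 ⊢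
  norm_num at e2 a10 a15 a20 a25 a30 ⊢
  rw [a10, a15, a20, a25, a30] at e2
  linear_combination e2

/-- `G∘b ≈ -G`, `b = (0 1; 5 0)` -/
private lemma bq (hB : BalEH (j + 2) G) {s1 s2 t1 t2 : ℤ} (hs : s1 ≠ 0 ∨ s2 ≠ 0)
    (ht : t1 ≠ 0 ∨ t2 ≠ 0) :
    G s2 (5 * s1) - G t2 (5 * t1) = -(G s1 s2 - G t1 t2) := by
  obtain ⟨-, -, -, hW, hT⟩ := hB
  have hs' : s2 ≠ 0 ∨ 5 * s1 ≠ 0 := by
    rcases hs with h | h
    · exact Or.inr (mul_ne_zero (by norm_num) h)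
    · exact Or.inl h
  have ht' : t2 ≠ 0 ∨ 5 * t1 ≠ 0 := by
    rcases ht with h | h
    · exact Or.inr (mul_ne_zero (by norm_num) h)
    · exact Or.inl h
  have e := hW.diff hs ht
  have f := hT.diff hs' ht'
  simp only [act, Pi.neg_apply, zero_mul, zero_add, neg_mul, one_mul, add_zero] at e f
  linear_combination e - f

private lemma sq (hB : BalEH (j + 2) G) {s1 s2 t1 t2 : ℤ} (hs : s1 ≠ 0 ∨ s2 ≠ 0)
    (ht : t1 ≠ 0 ∨ t2 ≠ 0) :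
    G (-s1) s2 - G (-t1) t2 = G s1 s2 - G t1 t2 := by
  obtain ⟨-, -, -, -, hT⟩ := hB
  have f := hT.diff hs ht
  simp only [act, zero_mul, zero_add, neg_mul, one_mul, add_zero] at f
  exact f

private lemma nsw {s t : ℤ} (h : s ≠ 0 ∨ t ≠ 0) : t ≠ 0 ∨ 5 * s ≠ 0 := by
  rcases h with h | h
  · exact Or.inr (mul_ne_zero (by norm_num) h)
  · exact Or.inl h

private lemma nng {s t : ℤ} (h : s ≠ 0 ∨ t ≠ 0) : -s ≠ 0 ∨ t ≠ 0 := by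
  rcases h with h | h
  · exact Or.inl (neg_ne_zero.2 h)
  · exact Or.inr h

/-- conjugation by `b = (0 1; 5 0)` -/
private lemma sw_rw (hPlA : HPlA) (hEdg : HEdg) (hB : BalEH (j + 2) G) {u1 u2 v1 v2 : ℤ}
    (hu : u1 ≠ 0 ∨ u2 ≠ 0) (hv : v1 ≠ 0 ∨ v2 ≠ 0) (p : Pt (j + 1)) :
    edgeH 1 u1 u2 v1 v2 G (swH p).1 (swH p).2 =
      -edgeH 1 u2 (5 * u1) v2 (5 * v1) G p.1 p.2 := by
  obtain ⟨b, c, d, h⟩ := exM hPlA j p.1 p.2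
  obtain ⟨h1, ⟨c', hc'⟩, h2, h3⟩ := sd h
  have h' : PlH 1 d c' (5 * b) 1 (swH p).1 (swH p).2 := by
    refine ⟨Or.inl ⟨?_, ⟨7 * b, by ring⟩⟩, ?_, ?_⟩
    · rw [hc'] at h1
      linear_combination h1
    · show (c' : ZMod (7 ^ (j + 1))) = p.2 * (5 : ZMod (7 ^ (j + 1)))⁻¹ * (d : ZMod (7 ^ (j + 1)))
      have h2' := ZMod.inv_mul_of_unit _ (five_unit j)
      have h3' : (5 : ZMod (7 ^ (j + 1))) * c' = p.2 * d := by
        rw [← h3, hc']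
        push_cast
        ring
      linear_combination (5 : ZMod (7 ^ (j + 1)))⁻¹ * h3' - (c' : ZMod (7 ^ (j + 1))) * h2'
    · show ((5 * b : ℤ) : ZMod (7 ^ (j + 1))) = 5 * p.1 * ((1 : ℤ) : ZMod (7 ^ (j + 1)))
      push_cast
      rw [h2, mul_one]
  rw [ed hEdg hB.1 hu hv h', ed hEdg hB.1 (nsw hu) (nsw hv) h]
  have e := bq hB (nz h'.1 hu) (nz h'.1 hv)
  rw [hc']
  have e1 : ∀ s t : ℤ, 1 * t + 7 ^ 1 * b * (5 * s) = 7 * (5 * b) * s + 1 * t := by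
    intro s t; ring
  have e2 : ∀ s t : ℤ, 7 * (5 * c') * t + d * (5 * s) = 5 * (d * s + 7 ^ 1 * c' * t) := by
    intro s t; ring
  rw [e1, e2, e1, e2]
  linear_combination e

/-- conjugation by `*` -/
private lemma ng_rw (hPlA : HPlA) (hEdg : HEdg) (hB : BalEH (j + 2) G) {u1 u2 v1 v2 : ℤ}
    (hu : u1 ≠ 0 ∨ u2 ≠ 0) (hv : v1 ≠ 0 ∨ v2 ≠ 0) (p : Pt (j + 1)) :
    edgeH 1 u1 u2 v1 v2 G (ng p).1 (ng p).2 = edgeH 1 (-u1) u2 (-v1) v2 G p.1 p.2 := by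
  obtain ⟨b, c, d, h⟩ := exM hPlA j p.1 p.2
  obtain ⟨h1, ⟨c', hc'⟩, h2, h3⟩ := sd h
  have h' : PlH 1 1 (-b) (-c) d (ng p).1 (ng p).2 := by
    refine ⟨Or.inl ⟨by linear_combination h1, ⟨-(7 * c'), by rw [hc']; ring⟩⟩, ?_, ?_⟩
    · show ((-b : ℤ) : ZMod (7 ^ (j + 1))) = -p.1 * ((1 : ℤ) : ZMod (7 ^ (j + 1)))
      push_cast
      rw [h2, mul_one]
    · show ((-c : ℤ) : ZMod (7 ^ (j + 1))) = -p.2 * (d : ZMod (7 ^ (j + 1)))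
      push_cast
      rw [h3]
      ring
  rw [ed hEdg hB.1 hu hv h', ed hEdg hB.1 (nng hu) (nng hv) h]
  have e := sq hB (nz h.1 (nng hu)) (nz h.1 (nng hv))
  have e1 : ∀ s t : ℤ, 1 * s + 7 ^ 1 * -b * t = -(1 * -s + 7 ^ 1 * b * t) := by intro s t; ring
  have e2 : ∀ s t : ℤ, 7 * -c * s + d * t = 7 * c * -s + d * t := by intro s t; ring
  rw [e1, e2, e1, e2]
  exact e

/-- multiplication by a matrix on the right -/
private lemma rm (hPlA : HPlA) (hEdg : HEdg) (hB : BalEH (j + 2) G) {u1 u2 v1 v2 : ℤ}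
    (hu : u1 ≠ 0 ∨ u2 ≠ 0) (hv : v1 ≠ 0 ∨ v2 ≠ 0) {α β γ δ : ℤ}
    (hm : HTy α (7 * β) (7 * γ) δ) (p : Pt (j + 1)) :
    edgeH 1 u1 u2 v1 v2 G (trp 1 α β γ δ p).1 (trp 1 α β γ δ p).2 =
      edgeH 1 (α * u1 + 7 * β * u2) (7 * γ * u1 + δ * u2) (α * v1 + 7 * β * v2)
        (7 * γ * v1 + δ * v2) G p.1 p.2 := by
  obtain ⟨b, c, d, h⟩ := exM hPlA j p.1 p.2
  have hD : α * δ - 49 * β * γ = 1 ∨ α * δ - 49 * β * γ = 5 := by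
    rcases hm with k | k
    · exact Or.inl (by linear_combination k.1)
    · exact Or.inr (by linear_combination k.1)
  have hD' : δ * α - 49 * γ * β = 1 ∨ δ * α - 49 * γ * β = 5 := by
    rcases hD with k | k
    · exact Or.inl (by linear_combination k)
    · exact Or.inr (by linear_combination k)
  have hx : (trp 1 α β γ δ p).1 * ((α : ZMod (7 ^ (j + 1))) + 49 * γ * p.1) = β + δ * p.1 := by
    have := ZMod.inv_mul_of_unit _ (un j hD p.1)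
    unfold trp
    rw [mul_assoc]
    have e : (49 : ZMod (7 ^ (j + 1))) = 7 ^ (1 + 1) := by norm_num
    rw [e, this, mul_one]
  have hy : (trp 1 α β γ δ p).2 * ((δ : ZMod (7 ^ (j + 1))) + 49 * β * p.2) = γ + α * p.2 := by
    have := ZMod.inv_mul_of_unit _ (un j hD' p.2)
    unfold trp
    rw [mul_assoc]
    have e : (49 : ZMod (7 ^ (j + 1))) = 7 ^ (1 + 1) := by norm_num
    rw [e, this, mul_one]
  have h' := plM h hm hx hy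
  have hdet : α * δ - 7 * β * (7 * γ) ≠ 0 := hm.det_ne
  have hu' := ne_zero_of_det (a := α) (b := 7 * β) (c := 7 * γ) (d := δ) hdet hu
  have hv' := ne_zero_of_det (a := α) (b := 7 * β) (c := 7 * γ) (d := δ) hdet hv
  rw [ed hEdg hB.1 hu' hv' h, ed hEdg hB.1 hu hv h']
  congr 1 <;> congr 1 <;> ring

/-- circles: a matrix after `swH` -/
private lemma ci (hPlA : HPlA) (hEdg : HEdg) (hB : BalEH (j + 2) G) {α β γ δ : ℤ}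
    (hm : HTy α (7 * β) (7 * γ) δ) {u1 u2 v1 v2 : ℤ}
    (hu : u1 ≠ 0 ∨ u2 ≠ 0) (hv : v1 ≠ 0 ∨ v2 ≠ 0) (p : Pt (j + 1)) :
    edgeH 1 u1 u2 v1 v2 G (trp 1 α β γ δ (swH p)).1 (trp 1 α β γ δ (swH p)).2 =
      -edgeH 1 (7 * γ * u1 + δ * u2) (5 * (α * u1 + 7 * β * u2)) (7 * γ * v1 + δ * v2)
        (5 * (α * v1 + 7 * β * v2)) G p.1 p.2 := by
  have hdet : α * δ - 7 * β * (7 * γ) ≠ 0 := hm.det_ne
  rw [rm hPlA hEdg hB hu hv hm (swH p)]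
  exact sw_rw hPlA hEdg hB
    (ne_zero_of_det (a := α) (b := 7 * β) (c := 7 * γ) (d := δ) hdet hu)
    (ne_zero_of_det (a := α) (b := 7 * β) (c := 7 * γ) (d := δ) hdet hv) p

/-- reflections: a matrix after `ng ∘ swH` -/
private lemma ri (hPlA : HPlA) (hEdg : HEdg) (hB : BalEH (j + 2) G) {α β γ δ : ℤ}
    (hm : HTy α (7 * β) (7 * γ) δ) {u1 u2 v1 v2 : ℤ}
    (hu : u1 ≠ 0 ∨ u2 ≠ 0) (hv : v1 ≠ 0 ∨ v2 ≠ 0) (p : Pt (j + 1)) :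
    edgeH 1 u1 u2 v1 v2 G (trp 1 α β γ δ (ng (swH p))).1 (trp 1 α β γ δ (ng (swH p))).2 =
      -edgeH 1 (7 * γ * u1 + δ * u2) (5 * -(α * u1 + 7 * β * u2)) (7 * γ * v1 + δ * v2)
        (5 * -(α * v1 + 7 * β * v2)) G p.1 p.2 := by
  have hdet : α * δ - 7 * β * (7 * γ) ≠ 0 := hm.det_ne
  have hu' := ne_zero_of_det (a := α) (b := 7 * β) (c := 7 * γ) (d := δ) hdet hu
  have hv' := ne_zero_of_det (a := α) (b := 7 * β) (c := 7 * γ) (d := δ) hdet hv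
  rw [rm hPlA hEdg hB hu hv hm (ng (swH p)), ng_rw hPlA hEdg hB hu' hv' (swH p)]
  exact sw_rw hPlA hEdg hB (nng hu') (nng hv') p

private lemma tyc6 : HTy 2 (7 * -1) (7 * 5) (-122) :=
  Or.inl ⟨by norm_num, by norm_num⟩

private lemma tyc8 : HTy 4 (7 * -1) (7 * 5) (-61) :=
  Or.inl ⟨by norm_num, by norm_num⟩

private lemma tyd8 : HTy 30 (7 * -7) (7 * 35) (-400) :=
  Or.inr ⟨by norm_num, by norm_num, by norm_num, by norm_num⟩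

private lemma tyc9 : HTy 38 (7 * -3) (7 * 15) (-58) :=
  Or.inl ⟨by norm_num, by norm_num⟩

private lemma tyd9 : HTy 40 (7 * -3) (7 * 15) (-55) :=
  Or.inr ⟨by norm_num, by norm_num, by norm_num, by norm_num⟩

private lemma tycB : HTy 20 (7 * -7) (7 * 35) (-600) :=
  Or.inr ⟨by norm_num, by norm_num, by norm_num, by norm_num⟩

private lemma tycE : HTy 5 (7 * -2) (7 * 10) (-195) :=
  Or.inr ⟨by norm_num, by norm_num, by norm_num, by norm_num⟩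

private lemma tyrD : HTy 5 (7 * -1) (7 * -5) 50 :=
  Or.inr ⟨by norm_num, by norm_num, by norm_num, by norm_num⟩

private lemma tyrA : HTy 9 (7 * -2) (7 * -10) 109 :=
  Or.inl ⟨by norm_num, by norm_num⟩

private lemma tyrC : HTy 3 (7 * -1) (7 * -5) 82 :=
  Or.inl ⟨by norm_num, by norm_num⟩

private lemma tyrH : HTy 10 (7 * -1) (7 * -5) 25 :=
  Or.inr ⟨by norm_num, by norm_num, by norm_num, by norm_num⟩

private lemma tyg2 : HTy 11 (7 * -4) (7 * 5) (-89) :=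
  Or.inl ⟨by norm_num, by norm_num⟩

private lemma tyg4 : HTy 65 (7 * -4) (7 * 5) (-15) :=
  Or.inr ⟨by norm_num, by norm_num, by norm_num, by norm_num⟩

private lemma tyg5 : HTy 20 (7 * -9) (7 * 5) (-110) :=
  Or.inr ⟨by norm_num, by norm_num, by norm_num, by norm_num⟩

private lemma tyR : HTy 1 (7 * -1) (7 * 0) 1 :=
  Or.inl ⟨by norm_num, by norm_num⟩

private lemma c6_rw (hPlA : HPlA) (hEdg : HEdg) (hB : BalEH (j + 2) G) {u1 u2 v1 v2 : ℤ}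
    (hu : u1 ≠ 0 ∨ u2 ≠ 0) (hv : v1 ≠ 0 ∨ v2 ≠ 0) (p : Pt (j + 1)) :
    edgeH 1 u1 u2 v1 v2 G (c6H p).1 (c6H p).2 =
      -edgeH 1 (7 * 5 * u1 + -122 * u2) (5 * (2 * u1 + 7 * -1 * u2)) (7 * 5 * v1 + -122 * v2)
        (5 * (2 * v1 + 7 * -1 * v2)) G p.1 p.2 :=
  ci hPlA hEdg hB tyc6 hu hv p

private lemma c8_rw (hPlA : HPlA) (hEdg : HEdg) (hB : BalEH (j + 2) G) {u1 u2 v1 v2 : ℤ}
    (hu : u1 ≠ 0 ∨ u2 ≠ 0) (hv : v1 ≠ 0 ∨ v2 ≠ 0) (p : Pt (j + 1)) :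
    edgeH 1 u1 u2 v1 v2 G (c8H p).1 (c8H p).2 =
      -edgeH 1 (7 * 5 * u1 + -61 * u2) (5 * (4 * u1 + 7 * -1 * u2)) (7 * 5 * v1 + -61 * v2)
        (5 * (4 * v1 + 7 * -1 * v2)) G p.1 p.2 :=
  ci hPlA hEdg hB tyc8 hu hv p

private lemma d8_rw (hPlA : HPlA) (hEdg : HEdg) (hB : BalEH (j + 2) G) {u1 u2 v1 v2 : ℤ}
    (hu : u1 ≠ 0 ∨ u2 ≠ 0) (hv : v1 ≠ 0 ∨ v2 ≠ 0) (p : Pt (j + 1)) :
    edgeH 1 u1 u2 v1 v2 G (d8H p).1 (d8H p).2 =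
      -edgeH 1 (7 * 35 * u1 + -400 * u2) (5 * (30 * u1 + 7 * -7 * u2)) (7 * 35 * v1 + -400 * v2)
        (5 * (30 * v1 + 7 * -7 * v2)) G p.1 p.2 :=
  ci hPlA hEdg hB tyd8 hu hv p

private lemma c9_rw (hPlA : HPlA) (hEdg : HEdg) (hB : BalEH (j + 2) G) {u1 u2 v1 v2 : ℤ}
    (hu : u1 ≠ 0 ∨ u2 ≠ 0) (hv : v1 ≠ 0 ∨ v2 ≠ 0) (p : Pt (j + 1)) :
    edgeH 1 u1 u2 v1 v2 G (c9H p).1 (c9H p).2 =
      -edgeH 1 (7 * 15 * u1 + -58 * u2) (5 * (38 * u1 + 7 * -3 * u2)) (7 * 15 * v1 + -58 * v2)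
        (5 * (38 * v1 + 7 * -3 * v2)) G p.1 p.2 :=
  ci hPlA hEdg hB tyc9 hu hv p

private lemma d9_rw (hPlA : HPlA) (hEdg : HEdg) (hB : BalEH (j + 2) G) {u1 u2 v1 v2 : ℤ}
    (hu : u1 ≠ 0 ∨ u2 ≠ 0) (hv : v1 ≠ 0 ∨ v2 ≠ 0) (p : Pt (j + 1)) :
    edgeH 1 u1 u2 v1 v2 G (d9H p).1 (d9H p).2 =
      -edgeH 1 (7 * 15 * u1 + -55 * u2) (5 * (40 * u1 + 7 * -3 * u2)) (7 * 15 * v1 + -55 * v2)
        (5 * (40 * v1 + 7 * -3 * v2)) G p.1 p.2 :=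
  ci hPlA hEdg hB tyd9 hu hv p

private lemma cB_rw (hPlA : HPlA) (hEdg : HEdg) (hB : BalEH (j + 2) G) {u1 u2 v1 v2 : ℤ}
    (hu : u1 ≠ 0 ∨ u2 ≠ 0) (hv : v1 ≠ 0 ∨ v2 ≠ 0) (p : Pt (j + 1)) :
    edgeH 1 u1 u2 v1 v2 G (cBH p).1 (cBH p).2 =
      -edgeH 1 (7 * 35 * u1 + -600 * u2) (5 * (20 * u1 + 7 * -7 * u2)) (7 * 35 * v1 + -600 * v2)
        (5 * (20 * v1 + 7 * -7 * v2)) G p.1 p.2 :=
  ci hPlA hEdg hB tycB hu hv p

private lemma cE_rw (hPlA : HPlA) (hEdg : HEdg) (hB : BalEH (j + 2) G) {u1 u2 v1 v2 : ℤ}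
    (hu : u1 ≠ 0 ∨ u2 ≠ 0) (hv : v1 ≠ 0 ∨ v2 ≠ 0) (p : Pt (j + 1)) :
    edgeH 1 u1 u2 v1 v2 G (cEH p).1 (cEH p).2 =
      -edgeH 1 (7 * 10 * u1 + -195 * u2) (5 * (5 * u1 + 7 * -2 * u2)) (7 * 10 * v1 + -195 * v2)
        (5 * (5 * v1 + 7 * -2 * v2)) G p.1 p.2 :=
  ci hPlA hEdg hB tycE hu hv p

private lemma g2_rw (hPlA : HPlA) (hEdg : HEdg) (hB : BalEH (j + 2) G) {u1 u2 v1 v2 : ℤ}
    (hu : u1 ≠ 0 ∨ u2 ≠ 0) (hv : v1 ≠ 0 ∨ v2 ≠ 0) (p : Pt (j + 1)) :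
    edgeH 1 u1 u2 v1 v2 G (g2H p).1 (g2H p).2 =
      -edgeH 1 (7 * 5 * u1 + -89 * u2) (5 * (11 * u1 + 7 * -4 * u2)) (7 * 5 * v1 + -89 * v2)
        (5 * (11 * v1 + 7 * -4 * v2)) G p.1 p.2 :=
  ci hPlA hEdg hB tyg2 hu hv p

private lemma rD_rw (hPlA : HPlA) (hEdg : HEdg) (hB : BalEH (j + 2) G) {u1 u2 v1 v2 : ℤ}
    (hu : u1 ≠ 0 ∨ u2 ≠ 0) (hv : v1 ≠ 0 ∨ v2 ≠ 0) (p : Pt (j + 1)) :
    edgeH 1 u1 u2 v1 v2 G (rDH p).1 (rDH p).2 =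
      -edgeH 1 (7 * -5 * u1 + 50 * u2) (5 * -(5 * u1 + 7 * -1 * u2)) (7 * -5 * v1 + 50 * v2)
        (5 * -(5 * v1 + 7 * -1 * v2)) G p.1 p.2 :=
  ri hPlA hEdg hB tyrD hu hv p

private lemma rA_rw (hPlA : HPlA) (hEdg : HEdg) (hB : BalEH (j + 2) G) {u1 u2 v1 v2 : ℤ}
    (hu : u1 ≠ 0 ∨ u2 ≠ 0) (hv : v1 ≠ 0 ∨ v2 ≠ 0) (p : Pt (j + 1)) :
    edgeH 1 u1 u2 v1 v2 G (rAH p).1 (rAH p).2 =
      -edgeH 1 (7 * -10 * u1 + 109 * u2) (5 * -(9 * u1 + 7 * -2 * u2)) (7 * -10 * v1 + 109 * v2)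
        (5 * -(9 * v1 + 7 * -2 * v2)) G p.1 p.2 :=
  ri hPlA hEdg hB tyrA hu hv p

private lemma rC_rw (hPlA : HPlA) (hEdg : HEdg) (hB : BalEH (j + 2) G) {u1 u2 v1 v2 : ℤ}
    (hu : u1 ≠ 0 ∨ u2 ≠ 0) (hv : v1 ≠ 0 ∨ v2 ≠ 0) (p : Pt (j + 1)) :
    edgeH 1 u1 u2 v1 v2 G (rCH p).1 (rCH p).2 =
      -edgeH 1 (7 * -5 * u1 + 82 * u2) (5 * -(3 * u1 + 7 * -1 * u2)) (7 * -5 * v1 + 82 * v2)
        (5 * -(3 * v1 + 7 * -1 * v2)) G p.1 p.2 :=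
  ri hPlA hEdg hB tyrC hu hv p

private lemma rH_rw (hPlA : HPlA) (hEdg : HEdg) (hB : BalEH (j + 2) G) {u1 u2 v1 v2 : ℤ}
    (hu : u1 ≠ 0 ∨ u2 ≠ 0) (hv : v1 ≠ 0 ∨ v2 ≠ 0) (p : Pt (j + 1)) :
    edgeH 1 u1 u2 v1 v2 G (rHH p).1 (rHH p).2 =
      -edgeH 1 (7 * -5 * u1 + 25 * u2) (5 * -(10 * u1 + 7 * -1 * u2)) (7 * -5 * v1 + 25 * v2)
        (5 * -(10 * v1 + 7 * -1 * v2)) G p.1 p.2 :=
  ri hPlA hEdg hB tyrH hu hv p

private lemma g4_rw (hPlA : HPlA) (hEdg : HEdg) (hB : BalEH (j + 2) G) {u1 u2 v1 v2 : ℤ}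
    (hu : u1 ≠ 0 ∨ u2 ≠ 0) (hv : v1 ≠ 0 ∨ v2 ≠ 0) (p : Pt (j + 1)) :
    edgeH 1 u1 u2 v1 v2 G (g4H p).1 (g4H p).2 =
      edgeH 1 (65 * u1 + 7 * -4 * u2) (7 * 5 * u1 + -15 * u2) (65 * v1 + 7 * -4 * v2)
        (7 * 5 * v1 + -15 * v2) G p.1 p.2 :=
  rm hPlA hEdg hB hu hv tyg4 p

private lemma g5_rw (hPlA : HPlA) (hEdg : HEdg) (hB : BalEH (j + 2) G) {u1 u2 v1 v2 : ℤ}
    (hu : u1 ≠ 0 ∨ u2 ≠ 0) (hv : v1 ≠ 0 ∨ v2 ≠ 0) (p : Pt (j + 1)) :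
    edgeH 1 u1 u2 v1 v2 G (g5H p).1 (g5H p).2 =
      edgeH 1 (20 * u1 + 7 * -9 * u2) (7 * 5 * u1 + -110 * u2) (20 * v1 + 7 * -9 * v2)
        (7 * 5 * v1 + -110 * v2) G p.1 p.2 :=
  rm hPlA hEdg hB hu hv tyg5 p

private lemma dR_rw (hPlA : HPlA) (hEdg : HEdg) (hB : BalEH (j + 2) G) {u1 u2 v1 v2 : ℤ}
    (hu : u1 ≠ 0 ∨ u2 ≠ 0) (hv : v1 ≠ 0 ∨ v2 ≠ 0) (p : Pt (j + 1)) :
    edgeH 1 u1 u2 v1 v2 G (dR 1 p).1 (dR 1 p).2 =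
      edgeH 1 (-(1 * u1 + 7 * -1 * u2)) (7 * 0 * u1 + 1 * u2) (-(1 * v1 + 7 * -1 * v2))
        (7 * 0 * v1 + 1 * v2) G p.1 p.2 := by
  have hdet : (1 : ℤ) * 1 - 7 * -1 * (7 * 0) ≠ 0 := by norm_num
  have r := rm hPlA hEdg hB hu hv tyR (ng p)
  refine r.trans ?_
  exact ng_rw hPlA hEdg hB (ne_zero_of_det hdet hu) (ne_zero_of_det hdet hv) p

private lemma memA (hPlA : HPlA) (hEdg : HEdg) (hB : BalEH (j + 2) G) {u1 u2 v1 v2 : ℤ}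
    (hu : u1 ≠ 0 ∨ u2 ≠ 0) (hv : v1 ≠ 0 ∨ v2 ≠ 0) :
    (fun p : Pt (j + 1) => edgeH 1 u1 u2 v1 v2 G p.1 p.2) ∈ anti7 (j + 1) :=
  fun p => ⟨shx hPlA hEdg hB hu hv p.1 p.2, shy hPlA hEdg hB hu hv p.1 p.2⟩

/-- the value at the cusp `u` -/
private noncomputable def W (G : ℤ → ℤ → ℂ) {m : ℕ} (p : Pt m) (u1 u2 : ℤ) : ℂ :=
  G (u1 + 7 ^ 1 * (p.1.val : ℤ) * u2)
    (7 * rYH 1 p.1 p.2 * u1 + (1 + 7 ^ (1 + 1) * (p.1.val : ℤ) * rYH 1 p.1 p.2) * u2)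

private lemma eW {m : ℕ} (p : Pt m) (u1 u2 v1 v2 : ℤ) :
    edgeH 1 u1 u2 v1 v2 G p.1 p.2 = W G p u1 u2 - W G p v1 v2 := rfl

private lemma Wsc (hPlA : HPlA) (hB : BalEH (j + 2) G) (p : Pt (j + 1)) (k : ℤ) (hk : k ≠ 0)
    (u1 u2 : ℤ) (hu : u1 ≠ 0 ∨ u2 ≠ 0) : W G p (k * u1) (k * u2) = W G p u1 u2 := by
  have h := nz (hPlA 1 (j + 1) (j + 1) p.1 p.2).1 hu
  have e := hB.1.1 k _ _ hk h
  unfold W
  have e1 : k * u1 + 7 ^ 1 * (p.1.val : ℤ) * (k * u2) = k * (1 * u1 + 7 ^ 1 * (p.1.val : ℤ) * u2) := by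
    ring
  have e2 : 7 * rYH 1 p.1 p.2 * (k * u1) + (1 + 7 ^ (1 + 1) * (p.1.val : ℤ) * rYH 1 p.1 p.2) * (k * u2)
      = k * (7 * rYH 1 p.1 p.2 * u1 + (1 + 7 ^ (1 + 1) * (p.1.val : ℤ) * rYH 1 p.1 p.2) * u2) := by
    ring
  rw [e1, e2, e, one_mul]

private lemma relf (hPlA : HPlA) (hEdg : HEdg) (hB : BalEH (j + 2) G) (p : Pt (j + 1)) :
    edgeH 1 1 0 0 1 G (ng p).1 (ng p).2 = 1 * edgeH 1 1 0 0 1 G p.1 p.2 ∧
    edgeH 1 1 0 0 1 G (swH p).1 (swH p).2 = 1 * edgeH 1 1 0 0 1 G p.1 p.2 := by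
  rw [ng_rw hPlA hEdg hB (by norm_num) (by norm_num) p,
    sw_rw hPlA hEdg hB (by norm_num) (by norm_num) p]
  simp only [eW]
  have s := Wsc hPlA hB p
  have a1 := s (-1) (by norm_num) 1 0 (by norm_num)
  have a2 := s 5 (by norm_num) 0 1 (by norm_num)
  norm_num at a1 a2 ⊢
  rw [a1, a2]
  exact ⟨rfl, by ring⟩

/-- Path {1, 3/2}. -/
private lemma relD (hPlA : HPlA) (hEdg : HEdg) (hB : BalEH (j + 2) G) (p : Pt (j + 1)) :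
    edgeH 1 1 1 3 2 G (rDH p).1 (rDH p).2 = 1 * edgeH 1 1 1 3 2 G p.1 p.2 := by
  rw [rD_rw hPlA hEdg hB (by norm_num) (by norm_num) p]
  simp only [eW]
  have s := Wsc hPlA hB p
  have a1 := s 5 (by norm_num) 3 2 (by norm_num)
  have a2 := s (-5) (by norm_num) 1 1 (by norm_num)
  norm_num at a1 a2 ⊢
  rw [a1, a2]

/-- Path {8/5, 3/2}. -/
private lemma relA (hPlA : HPlA) (hEdg : HEdg) (hB : BalEH (j + 2) G) (p : Pt (j + 1)) :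
    edgeH 1 8 5 3 2 G (rAH p).1 (rAH p).2 = 1 * edgeH 1 8 5 3 2 G p.1 p.2 := by
  rw [rA_rw hPlA hEdg hB (by norm_num) (by norm_num) p]
  simp only [eW]
  have s := Wsc hPlA hB p
  have a1 := s (-5) (by norm_num) 3 2 (by norm_num)
  norm_num at a1 ⊢
  rw [a1]

/-- Path {12/5, 2}. -/
private lemma relC (hPlA : HPlA) (hEdg : HEdg) (hB : BalEH (j + 2) G) (p : Pt (j + 1)) :
    edgeH 1 12 5 2 1 G (rCH p).1 (rCH p).2 = 1 * edgeH 1 12 5 2 1 G p.1 p.2 := by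
  rw [rC_rw hPlA hEdg hB (by norm_num) (by norm_num) p]
  simp only [eW]
  have s := Wsc hPlA hB p
  have a1 := s (-5) (by norm_num) 2 1 (by norm_num)
  norm_num at a1 ⊢
  rw [a1]

/-- Path {1, 2/3}. -/
private lemma relH (hPlA : HPlA) (hEdg : HEdg) (hB : BalEH (j + 2) G) (p : Pt (j + 1)) :
    edgeH 1 1 1 2 3 G (rHH p).1 (rHH p).2 = 1 * edgeH 1 1 1 2 3 G p.1 p.2 := by
  rw [rH_rw hPlA hEdg hB (by norm_num) (by norm_num) p]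
  simp only [eW]
  have s := Wsc hPlA hB p
  have a1 := s (-5) (by norm_num) 2 3 (by norm_num)
  have a2 := s 5 (by norm_num) 1 1 (by norm_num)
  norm_num at a1 a2 ⊢
  rw [a1, a2]

/-- Path {5/2, 12/5}. -/
private lemma relB (hPlA : HPlA) (hEdg : HEdg) (hB : BalEH (j + 2) G) (p : Pt (j + 1)) :
    edgeH 1 5 2 12 5 G (cBH p).1 (cBH p).2 = -1 * edgeH 1 5 2 12 5 G p.1 p.2 := by
  rw [cB_rw hPlA hEdg hB (by norm_num) (by norm_num) p]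
  simp only [eW]
  have s := Wsc hPlA hB p
  have a1 := s 5 (by norm_num) 5 2 (by norm_num)
  have a2 := s (-5) (by norm_num) 12 5 (by norm_num)
  norm_num at a1 a2 ⊢
  rw [a1, a2]

/-- Path {3, 13/5}. -/
private lemma relE (hPlA : HPlA) (hEdg : HEdg) (hB : BalEH (j + 2) G) (p : Pt (j + 1)) :
    edgeH 1 3 1 13 5 G (cEH p).1 (cEH p).2 = -1 * edgeH 1 3 1 13 5 G p.1 p.2 := by
  rw [cE_rw hPlA hEdg hB (by norm_num) (by norm_num) p]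
  simp only [eW]
  have s := Wsc hPlA hB p
  have a1 := s 5 (by norm_num) 3 1 (by norm_num)
  have a2 := s (-5) (by norm_num) 13 5 (by norm_num)
  norm_num at a1 a2 ⊢
  rw [a1, a2]

/-- Path {∞, 7/2}. -/
private lemma relJ1 (hPlA : HPlA) (hEdg : HEdg) (hB : BalEH (j + 2) G) (p : Pt (j + 1)) :
    edgeH 1 1 0 7 2 G (dR 1 p).1 (dR 1 p).2 = 1 * edgeH 1 1 0 7 2 G p.1 p.2 := by
  rw [dR_rw hPlA hEdg hB (by norm_num) (by norm_num) p]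
  simp only [eW]
  have s := Wsc hPlA hB p
  have a1 := s (-1) (by norm_num) 1 0 (by norm_num)
  norm_num at a1 ⊢
  rw [a1]

/-- Path {∞, 7/2}. -/
private lemma relJ2 (hPlA : HPlA) (hEdg : HEdg) (hB : BalEH (j + 2) G) (p : Pt (j + 1)) :
    edgeH 1 1 0 7 2 G (c6H p).1 (c6H p).2 = 1 * edgeH 1 1 0 7 2 G p.1 p.2 := by
  rw [c6_rw hPlA hEdg hB (by norm_num) (by norm_num) p]
  simp only [eW]
  have s := Wsc hPlA hB p
  have a1 := s 5 (by norm_num) 7 2 (by norm_num)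
  norm_num at a1 ⊢
  rw [a1]

/-- Path {5/3, 8/5}. -/
private lemma relyd (hPlA : HPlA) (hEdg : HEdg) (hB : BalEH (j + 2) G) (p : Pt (j + 1)) :
    edgeH 1 5 3 8 5 G (d8H p).1 (d8H p).2 = -edgeH 1 5 3 8 5 G p.1 p.2 := by
  rw [d8_rw hPlA hEdg hB (by norm_num) (by norm_num) p]
  simp only [eW]
  have s := Wsc hPlA hB p
  have a1 := s 5 (by norm_num) 5 3 (by norm_num)
  have a2 := s (-5) (by norm_num) 8 5 (by norm_num)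
  norm_num at a1 a2 ⊢
  rw [a1, a2]

/-- Path {11/20, 1/2}. -/
private lemma relzd (hPlA : HPlA) (hEdg : HEdg) (hB : BalEH (j + 2) G) (p : Pt (j + 1)) :
    edgeH 1 11 20 1 2 G (d9H p).1 (d9H p).2 = -edgeH 1 11 20 1 2 G p.1 p.2 := by
  rw [d9_rw hPlA hEdg hB (by norm_num) (by norm_num) p]
  simp only [eW]
  have s := Wsc hPlA hB p
  have a1 := s 5 (by norm_num) 11 20 (by norm_num)
  have a2 := s (-5) (by norm_num) 1 2 (by norm_num)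
  norm_num at a1 a2 ⊢
  rw [a1, a2]

/-- the tile `∞, 1/2, 2/5, 0` -/
private lemma relaa (hPlA : HPlA) (hEdg : HEdg) (hB : BalEH (j + 2) G) (p : Pt (j + 1)) :
    aaH (fun p : Pt (j + 1) => edgeH 1 1 0 0 1 G p.1 p.2)
      (fun p : Pt (j + 1) => edgeH 1 1 0 1 2 G p.1 p.2) p = edgeH 1 1 2 2 5 G p.1 p.2 := by
  change edgeH 1 1 0 0 1 G p.1 p.2 - edgeH 1 1 0 1 2 G p.1 p.2 -
    edgeH 1 1 0 1 2 G (swH p).1 (swH p).2 = edgeH 1 1 2 2 5 G p.1 p.2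
  rw [sw_rw hPlA hEdg hB (u1 := 1) (u2 := 0) (by norm_num) (by norm_num) p]
  simp only [eW]
  have s := Wsc hPlA hB p
  have a1 := s 5 (by norm_num) 0 1 (by norm_num)
  norm_num at a1 ⊢
  rw [a1]
  ring

/-- Path {2, 8/5}. -/
private lemma relbb (p : Pt (j + 1)) :
    bbH (fun p : Pt (j + 1) => edgeH 1 1 0 1 1 G p.1 p.2)
      (fun p : Pt (j + 1) => edgeH 1 1 1 3 2 G p.1 p.2)
      (fun p : Pt (j + 1) => edgeH 1 1 0 2 1 G p.1 p.2)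
      (fun p : Pt (j + 1) => edgeH 1 8 5 3 2 G p.1 p.2) p = edgeH 1 2 1 8 5 G p.1 p.2 := by
  unfold bbH
  simp only [eW]
  ring

/-- Path {13/5, 5/2}. -/
private lemma relcc (p : Pt (j + 1)) :
    ccH (fun p : Pt (j + 1) => edgeH 1 1 0 2 1 G p.1 p.2)
      (fun p : Pt (j + 1) => edgeH 1 5 2 12 5 G p.1 p.2)
      (fun p : Pt (j + 1) => edgeH 1 12 5 2 1 G p.1 p.2)
      (fun p : Pt (j + 1) => edgeH 1 1 0 3 1 G p.1 p.2)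
      (fun p : Pt (j + 1) => edgeH 1 3 1 13 5 G p.1 p.2) p = edgeH 1 13 5 5 2 G p.1 p.2 := by
  unfold ccH
  simp only [eW]
  ring

/-- Path {3/5, 1/2}. -/
private lemma relhh (hPlA : HPlA) (hEdg : HEdg) (hB : BalEH (j + 2) G) (p : Pt (j + 1)) :
    hhH (fun p : Pt (j + 1) => edgeH 1 1 0 1 2 G p.1 p.2)
      (fun p : Pt (j + 1) => edgeH 1 1 0 1 1 G p.1 p.2)
      (fun p : Pt (j + 1) => edgeH 1 1 0 2 1 G p.1 p.2)
      (fun p : Pt (j + 1) => edgeH 1 5 2 12 5 G p.1 p.2)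
      (fun p : Pt (j + 1) => edgeH 1 12 5 2 1 G p.1 p.2)
      (fun p : Pt (j + 1) => edgeH 1 1 0 3 1 G p.1 p.2)
      (fun p : Pt (j + 1) => edgeH 1 3 1 13 5 G p.1 p.2)
      (fun p : Pt (j + 1) => edgeH 1 1 1 2 3 G p.1 p.2) p = edgeH 1 3 5 1 2 G p.1 p.2 := by
  unfold hhH
  rw [relcc (g2H p)]
  beta_reduce
  rw [g2_rw hPlA hEdg hB (by norm_num) (by norm_num) p]
  simp only [eW]
  have s := Wsc hPlA hB p
  have a1 := s 5 (by norm_num) 2 3 (by norm_num)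
  have a2 := s (-1) (by norm_num) 3 5 (by norm_num)
  norm_num at a1 a2 ⊢
  rw [a1, a2]
  ring

/-- Path {17/5, 3}. -/
private lemma relkk (hPlA : HPlA) (hEdg : HEdg) (hB : BalEH (j + 2) G) (p : Pt (j + 1)) :
    kkH (fun p : Pt (j + 1) => edgeH 1 1 0 3 1 G p.1 p.2)
      (fun p : Pt (j + 1) => edgeH 1 1 0 7 2 G p.1 p.2) p = edgeH 1 17 5 3 1 G p.1 p.2 := by
  change edgeH 1 1 0 3 1 G p.1 p.2 + edgeH 1 1 0 3 1 G (c6H p).1 (c6H p).2 -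
    edgeH 1 1 0 7 2 G p.1 p.2 = edgeH 1 17 5 3 1 G p.1 p.2
  rw [c6_rw hPlA hEdg hB (by norm_num) (by norm_num) p]
  simp only [eW]
  have s := Wsc hPlA hB p
  have a1 := s 5 (by norm_num) 7 2 (by norm_num)
  have a2 := s (-1) (by norm_num) 17 5 (by norm_num)
  norm_num at a1 a2 ⊢
  rw [a1, a2]
  ring

/-- Path {5/3, 8/5}. -/
private lemma relyy (hPlA : HPlA) (hEdg : HEdg) (hB : BalEH (j + 2) G) (p : Pt (j + 1)) :
    yyH (fun p : Pt (j + 1) => edgeH 1 1 0 0 1 G p.1 p.2)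
      (fun p : Pt (j + 1) => edgeH 1 1 0 1 2 G p.1 p.2)
      (fun p : Pt (j + 1) => edgeH 1 1 0 1 1 G p.1 p.2)
      (fun p : Pt (j + 1) => edgeH 1 1 1 3 2 G p.1 p.2)
      (fun p : Pt (j + 1) => edgeH 1 1 0 2 1 G p.1 p.2)
      (fun p : Pt (j + 1) => edgeH 1 8 5 3 2 G p.1 p.2) p = edgeH 1 5 3 8 5 G p.1 p.2 := by
  unfold yyH
  rw [relbb p, relbb (c8H p), relaa hPlA hEdg hB (g4H p),
    c8_rw hPlA hEdg hB (by norm_num) (by norm_num) p,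
    g4_rw hPlA hEdg hB (by norm_num) (by norm_num) p]
  simp only [eW]
  have s := Wsc hPlA hB p
  have a1 := s (-5) (by norm_num) 5 3 (by norm_num)
  have a2 := s (-5) (by norm_num) 2 1 (by norm_num)
  norm_num at a1 a2 ⊢
  rw [a1, a2]
  ring

/-- Path {11/20, 1/2}. -/
private lemma relzz (hPlA : HPlA) (hEdg : HEdg) (hB : BalEH (j + 2) G) (p : Pt (j + 1)) :
    zzH (fun p : Pt (j + 1) => edgeH 1 1 0 1 2 G p.1 p.2)
      (fun p : Pt (j + 1) => edgeH 1 1 0 1 1 G p.1 p.2)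
      (fun p : Pt (j + 1) => edgeH 1 1 0 2 1 G p.1 p.2)
      (fun p : Pt (j + 1) => edgeH 1 5 2 12 5 G p.1 p.2)
      (fun p : Pt (j + 1) => edgeH 1 12 5 2 1 G p.1 p.2)
      (fun p : Pt (j + 1) => edgeH 1 1 0 3 1 G p.1 p.2)
      (fun p : Pt (j + 1) => edgeH 1 3 1 13 5 G p.1 p.2)
      (fun p : Pt (j + 1) => edgeH 1 1 0 7 2 G p.1 p.2)
      (fun p : Pt (j + 1) => edgeH 1 1 1 2 3 G p.1 p.2) p = edgeH 1 11 20 1 2 G p.1 p.2 := by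
  unfold zzH
  rw [relhh hPlA hEdg hB p, relhh hPlA hEdg hB (c9H p), relkk hPlA hEdg hB (g5H p),
    c9_rw hPlA hEdg hB (by norm_num) (by norm_num) p,
    g5_rw hPlA hEdg hB (by norm_num) (by norm_num) p]
  simp only [eW]
  have s := Wsc hPlA hB p
  have a1 := s 5 (by norm_num) 5 9 (by norm_num)
  have a2 := s (-1) (by norm_num) 11 20 (by norm_num)
  have a3 := s (-1) (by norm_num) 3 5 (by norm_num)
  norm_num at a1 a2 a3 ⊢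
  rw [a1, a2, a3]
  ring

private lemma memE (hPlA : HPlA) (hEdg : HEdg) (hB : BalEH (j + 2) G) :
    ((((fun p : Pt (j + 1) => edgeH 1 1 0 0 1 G p.1 p.2), (fun p : Pt (j + 1) => edgeH 1 1 0 1 2 G p.1 p.2)),
      ((fun p : Pt (j + 1) => edgeH 1 1 0 1 1 G p.1 p.2), (fun p : Pt (j + 1) => edgeH 1 1 1 3 2 G p.1 p.2))),
    ((((fun p : Pt (j + 1) => edgeH 1 1 0 2 1 G p.1 p.2), (fun p : Pt (j + 1) => edgeH 1 8 5 3 2 G p.1 p.2)),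
      ((fun p : Pt (j + 1) => edgeH 1 5 2 12 5 G p.1 p.2), (fun p : Pt (j + 1) => edgeH 1 12 5 2 1 G p.1 p.2))),
    (((fun p : Pt (j + 1) => edgeH 1 1 0 3 1 G p.1 p.2), (fun p : Pt (j + 1) => edgeH 1 3 1 13 5 G p.1 p.2)),
      ((fun p : Pt (j + 1) => edgeH 1 1 0 7 2 G p.1 p.2), (fun p : Pt (j + 1) => edgeH 1 1 1 2 3 G p.1 p.2))))) ∈ subEH (j + 1) := by
  refine ⟨⟨⟨memA hPlA hEdg hB (by norm_num) (by norm_num), fun p => relf hPlA hEdg hB p⟩,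
      memA hPlA hEdg hB (by norm_num) (by norm_num), memA hPlA hEdg hB (by norm_num) (by norm_num),
      ⟨memA hPlA hEdg hB (by norm_num) (by norm_num), fun p => relD hPlA hEdg hB p⟩⟩,
    ⟨memA hPlA hEdg hB (by norm_num) (by norm_num),
      ⟨memA hPlA hEdg hB (by norm_num) (by norm_num), fun p => relA hPlA hEdg hB p⟩,
      ⟨memA hPlA hEdg hB (by norm_num) (by norm_num), fun p => relB hPlA hEdg hB p⟩,
      ⟨memA hPlA hEdg hB (by norm_num) (by norm_num), fun p => relC hPlA hEdg hB p⟩⟩,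
    ⟨memA hPlA hEdg hB (by norm_num) (by norm_num),
      ⟨memA hPlA hEdg hB (by norm_num) (by norm_num), fun p => relE hPlA hEdg hB p⟩,
      ⟨memA hPlA hEdg hB (by norm_num) (by norm_num),
        fun p => ⟨relJ1 hPlA hEdg hB p, relJ2 hPlA hEdg hB p⟩⟩,
      ⟨memA hPlA hEdg hB (by norm_num) (by norm_num), fun p => relH hPlA hEdg hB p⟩⟩,
    fun p => ?_, fun p => ?_⟩
  · change yyH (fun p : Pt (j + 1) => edgeH 1 1 0 0 1 G p.1 p.2)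
      (fun p : Pt (j + 1) => edgeH 1 1 0 1 2 G p.1 p.2)
      (fun p : Pt (j + 1) => edgeH 1 1 0 1 1 G p.1 p.2)
      (fun p : Pt (j + 1) => edgeH 1 1 1 3 2 G p.1 p.2)
      (fun p : Pt (j + 1) => edgeH 1 1 0 2 1 G p.1 p.2)
      (fun p : Pt (j + 1) => edgeH 1 8 5 3 2 G p.1 p.2) p +
      yyH (fun p : Pt (j + 1) => edgeH 1 1 0 0 1 G p.1 p.2)
      (fun p : Pt (j + 1) => edgeH 1 1 0 1 2 G p.1 p.2)
      (fun p : Pt (j + 1) => edgeH 1 1 0 1 1 G p.1 p.2)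
      (fun p : Pt (j + 1) => edgeH 1 1 1 3 2 G p.1 p.2)
      (fun p : Pt (j + 1) => edgeH 1 1 0 2 1 G p.1 p.2)
      (fun p : Pt (j + 1) => edgeH 1 8 5 3 2 G p.1 p.2) (d8H p) = 0
    rw [relyy hPlA hEdg hB p, relyy hPlA hEdg hB (d8H p), relyd hPlA hEdg hB p]
    ring
  · change zzH (fun p : Pt (j + 1) => edgeH 1 1 0 1 2 G p.1 p.2)
      (fun p : Pt (j + 1) => edgeH 1 1 0 1 1 G p.1 p.2)
      (fun p : Pt (j + 1) => edgeH 1 1 0 2 1 G p.1 p.2)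
      (fun p : Pt (j + 1) => edgeH 1 5 2 12 5 G p.1 p.2)
      (fun p : Pt (j + 1) => edgeH 1 12 5 2 1 G p.1 p.2)
      (fun p : Pt (j + 1) => edgeH 1 1 0 3 1 G p.1 p.2)
      (fun p : Pt (j + 1) => edgeH 1 3 1 13 5 G p.1 p.2)
      (fun p : Pt (j + 1) => edgeH 1 1 0 7 2 G p.1 p.2)
      (fun p : Pt (j + 1) => edgeH 1 1 1 2 3 G p.1 p.2) p +
      zzH (fun p : Pt (j + 1) => edgeH 1 1 0 1 2 G p.1 p.2)
      (fun p : Pt (j + 1) => edgeH 1 1 0 1 1 G p.1 p.2)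
      (fun p : Pt (j + 1) => edgeH 1 1 0 2 1 G p.1 p.2)
      (fun p : Pt (j + 1) => edgeH 1 5 2 12 5 G p.1 p.2)
      (fun p : Pt (j + 1) => edgeH 1 12 5 2 1 G p.1 p.2)
      (fun p : Pt (j + 1) => edgeH 1 1 0 3 1 G p.1 p.2)
      (fun p : Pt (j + 1) => edgeH 1 3 1 13 5 G p.1 p.2)
      (fun p : Pt (j + 1) => edgeH 1 1 0 7 2 G p.1 p.2)
      (fun p : Pt (j + 1) => edgeH 1 1 1 2 3 G p.1 p.2) (d9H p) = 0
    rw [relzz hPlA hEdg hB p, relzz hPlA hEdg hB (d9H p), relzd hPlA hEdg hB p]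
    ring

end

/-- Module E1A of the level `5 * 7^n`. -/
theorem hE1A : StHE1a := by
  intro he ha _ k G hk hB
  obtain ⟨j, rfl⟩ : ∃ j, k = j + 2 := ⟨k - 2, by omega⟩
  exact memE ha he hB

end Pool.Agent.Helper16.Q5P7
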